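import Pool.Agent.W2helper37.DP.Stm

/-! Project DP, piece CCC. -/

set_option autoImplicit false

namespace Pool.Agent.W2helper19.DP

open Set Pool.Agent.H42.Dom Pool.Agent.W2helper37.DP

universe u

theorem p_ccc : P_CCC.{u} := by
  intro X _ hS 𝒲 hW hdisj
  classical
  by_contra hnc
  obtain ⟨O, hOdef⟩ : ∃ O : Set X, O = (closure (⋃₀ 𝒲))ᶜ := ⟨_, rfl⟩
  have hO : IsOpen O := by rw [hOdef]; exact isClosed_closure.isOpen_compl
  have hWO : ∀ W ∈ 𝒲, ∀ z ∈ W, z ∉ O := by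
    intro W hWW z hz hzO
    rw [hOdef] at hzO
    exact hzO (subset_closure ⟨W, hWW, hz⟩)
  obtain ⟨𝒰, h𝒰⟩ : ∃ 𝒰 : Set (Set X), 𝒰 = {U | ∃ F : Set (Set X), F ⊆ 𝒲 ∧ F.Finite ∧ U = ⋃₀ F ∪ O} :=
    ⟨_, rfl⟩
  have hD : DOm 𝒰 := mk_dom (by
    intro U hU
    rw [h𝒰] at hU
    obtain ⟨F, hF1, hF2, rfl⟩ := hU
    refine ⟨(isOpen_sUnion fun W hW' => (hW W (hF1 hW')).1).union hO, ?_⟩
    obtain ⟨W, hW1, hW2⟩ : ∃ W ∈ 𝒲, W ∉ F := by
      by_contra h
      push Not at h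
      exact hnc ((hF2.subset h).countable)
    intro h
    obtain ⟨x, hx⟩ := (hW W hW1).2
    have hx' := h (mem_univ x)
    obtain ⟨z, hz1, hz2⟩ := mem_closure_iff.1 hx' W (hW W hW1).1 hx
    rcases hz2 with ⟨W', hW', hz⟩ | hz
    · have := hdisj hW1 (hF1 hW') (by rintro rfl; exact hW2 hW')
      exact Set.disjoint_left.1 this hz1 hz
    · exact hWO W hW1 z hz1 hz) (by
    intro F hF hF'
    have : ∀ G : Set X, ∃ E : Set (Set X), E ⊆ 𝒲 ∧ E.Finite ∧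
        (G ∈ F → ((⋃₀ E ∪ O) ∩ G).Nonempty) := by
      intro G
      by_cases hG : G ∈ F
      · by_cases h : (G ∩ ⋃₀ 𝒲).Nonempty
        · obtain ⟨x, hx, W, hW1, hxW⟩ := h
          exact ⟨{W}, by simpa using hW1, finite_singleton _,
            fun _ => ⟨x, Or.inl ⟨W, rfl, hxW⟩, hx⟩⟩
        · refine ⟨∅, empty_subset _, finite_empty, fun _ => ?_⟩
          obtain ⟨x, hx⟩ := (hF' G hG).2
          refine ⟨x, Or.inr ?_, hx⟩
          rw [hOdef]
          intro hcl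
          obtain ⟨z, hz1, hz2⟩ := mem_closure_iff.1 hcl G (hF' G hG).1 hx
          exact h ⟨z, hz1, hz2⟩
      · exact ⟨∅, empty_subset _, finite_empty, fun h => absurd h hG⟩
    choose E hE1 hE2 hE3 using this
    refine ⟨⋃₀ (⋃ G ∈ F, E G) ∪ O, by
      rw [h𝒰]
      exact ⟨_, iUnion₂_subset fun G _ => hE1 G, hF.biUnion fun G _ => hE2 G, rfl⟩, fun G hG => ?_⟩
    refine (hE3 G hG).mono (inter_subset_inter_left _ (union_subset_union_left _
      (sUnion_subset_sUnion ?_)))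
    exact subset_biUnion_of_mem (u := fun G => E G) hG)
  obtain ⟨F, hF1, hF2⟩ := hS (fun _ => 𝒰) (fun _ => hD)
  have hC : (⋃ n, F n).Countable := countable_iUnion fun n => (hF1 n).2.1.countable
  have : ∀ U : Set X, ∃ E : Set (Set X), E ⊆ 𝒲 ∧ E.Finite ∧ (U ∈ 𝒰 → U = ⋃₀ E ∪ O) := by
    intro U
    by_cases hU : U ∈ 𝒰
    · rw [h𝒰] at hU
      obtain ⟨E, h1, h2, h3⟩ := hU
      exact ⟨E, h1, h2, fun _ => h3⟩
    · exact ⟨∅, empty_subset _, finite_empty, fun h => absurd h hU⟩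
  choose E hE1 hE2 hE3 using this
  apply hnc
  refine (hC.biUnion fun U _ => (hE2 U).countable).mono ?_
  intro W hWW
  obtain ⟨hWo, hWn⟩ := hW W hWW
  obtain ⟨z, hz1, U, hU, hz2⟩ := hF2.2.1.inter_open_nonempty W hWo hWn
  have hU' : U ∈ 𝒰 := by
    obtain ⟨n, hn⟩ := mem_iUnion.1 hU
    exact (hF1 n).1 hn
  rw [hE3 U hU'] at hz2
  rcases hz2 with ⟨W', hW', hz3⟩ | hz3
  · have : W = W' := by
      by_contra hne
      exact disjoint_left.1 (hdisj hWW (hE1 U hW') hne) hz1 hz3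
    subst this
    exact mem_biUnion hU hW'
  · exact absurd hz3 (hWO W hWW z hz1)

end Pool.Agent.W2helper19.DP
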